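import Pool.Agent.H23.VW.Frozen
import Pool.Agent.H62.VW.W
import Mathlib

/-!
# The Weak Win threshold of the van der Waerden game is `o(W(n))`
-/

set_option autoImplicit false

namespace Pool.Agent.Results.MP_5a0b46_co.WeakWinThreshold

open Finset Filter Topology

/-- `A` contains an arithmetic progression of `n` terms `a, a + d, .., a + (n - 1) d`, `d ≥ 1`. -/
def HasAP (n : ℕ) (A : Finset ℕ) : Prop := ∃ a d : ℕ, 1 ≤ d ∧ ∀ i < n, a + i * d ∈ A

/-- The `(i+1)`-st move of the first player, when he follows the strategy `σ` and the second player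
claims `b 0, b 1, ..`.  A strategy of the first player is a function `σ` from finite lists to
integers: his next move, given the list of the moves made so far by the second player (his own
moves so far are then determined). -/
def move (σ : List ℕ → ℕ) (b : ℕ → ℕ) (i : ℕ) : ℕ := σ ((List.range i).map b)

/-- The first player can force a Weak Win in the `(N, n)` game: for some strategy `σ`, whenever the
`N / 2` moves `b i` of the second player are legal (`b i` lies in `[N]` and is none of the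
`i + 1` integers claimed before by the first and none of the `i` integers claimed before by the
second player), the `(N + 1) / 2` moves of the first player are legal, and at the end, when all
integers of `[N]` are claimed, he owns every element of some arithmetic progression of `n` terms. -/
def CanForce (N n : ℕ) : Prop :=
  ∃ σ : List ℕ → ℕ, ∀ b : ℕ → ℕ,
    (∀ i < N / 2, b i ∈ Icc 1 N ∧ (∀ j ≤ i, b i ≠ move σ b j) ∧ ∀ j < i, b i ≠ b j) →
    (∀ i < (N + 1) / 2, move σ b i ∈ Icc 1 N ∧ (∀ j < i, move σ b i ≠ move σ b j) ∧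
      ∀ j < i, move σ b i ≠ b j) ∧
    HasAP n ((range ((N + 1) / 2)).image (move σ b))

theorem HasAP.mono {n : ℕ} {A B : Finset ℕ} (h : HasAP n A) (hAB : A ⊆ B) : HasAP n B := by
  obtain ⟨a, d, hd, h⟩ := h
  exact ⟨a, d, hd, fun i hi => hAB (h i hi)⟩

theorem HasAP.anti {m n : ℕ} (hmn : m ≤ n) {A : Finset ℕ} (h : HasAP n A) : HasAP m A := by
  obtain ⟨a, d, hd, h⟩ := h
  exact ⟨a, d, hd, fun i hi => h i (hi.trans_le hmn)⟩

theorem CanForce.anti {N m n : ℕ} (hmn : m ≤ n) (h : CanForce N n) : CanForce N m := by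
  obtain ⟨σ, h⟩ := h
  exact ⟨σ, fun b hb => ⟨(h b hb).1, (h b hb).2.anti hmn⟩⟩

/-! ### The closed predicates and strategies -/

/-- A strategy which depends on the position only. -/
abbrev Strategy : Type := Finset ℕ → Finset ℕ → ℕ

/-- The position after `i` rounds. -/
def position (σ : Strategy) (b : ℕ → ℕ) : ℕ → Finset ℕ × Finset ℕ
  | 0 => (∅, ∅)
  | i + 1 => (insert (σ (position σ b i).1 (position σ b i).2) (position σ b i).1,
      insert (b i) (position σ b i).2)

/-- The position after a list of moves of the second player. -/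
def after (τ : Strategy) (l : List ℕ) : Finset ℕ × Finset ℕ :=
  l.foldl (fun q y => (insert (τ q.1 q.2) q.1, insert y q.2)) (∅, ∅)

theorem after_range (τ : Strategy) (b : ℕ → ℕ) (i : ℕ) :
    after τ ((List.range i).map b) = position τ b i := by
  induction i with
  | zero => rfl
  | succ i ih =>
    rw [List.range_succ, List.map_append, after, List.foldl_append]
    rw [after] at ih
    rw [ih]
    rfl

theorem move_eq (τ : Strategy) (b : ℕ → ℕ) (i : ℕ) :
    move (fun l => τ (after τ l).1 (after τ l).2) b i =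
      τ (position τ b i).1 (position τ b i).2 := by
  show τ (after τ ((List.range i).map b)).1 (after τ ((List.range i).map b)).2 = _
  rw [after_range]

theorem position_fst (τ : Strategy) (b : ℕ → ℕ) (i : ℕ) :
    (position τ b i).1 = (range i).image (move (fun l => τ (after τ l).1 (after τ l).2) b) := by
  induction i with
  | zero => rfl
  | succ i ih =>
    rw [Finset.range_add_one, Finset.image_insert, ← ih, move_eq]
    rfl

theorem position_snd (τ : Strategy) (b : ℕ → ℕ) (i : ℕ) :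
    (position τ b i).2 = (range i).image b := by
  induction i with
  | zero => rfl
  | succ i ih =>
    rw [Finset.range_add_one, Finset.image_insert, ← ih]
    rfl

/-- The positions from which the first player wins. -/
inductive Win (N n : ℕ) : Finset ℕ → Finset ℕ → Prop
  | ap {M B : Finset ℕ} (h : HasAP n M) : Win N n M B
  | first {M B : Finset ℕ} (hc : M.card = B.card) (x : ℕ) (hx : x ∈ Icc 1 N) (h1 : x ∉ M)
      (h2 : x ∉ B) (h : Win N n (insert x M) B) : Win N n M B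
  | second {M B : Finset ℕ} (hc : M.card = B.card + 1) (hf : ∃ y ∈ Icc 1 N, y ∉ M ∧ y ∉ B)
      (h : ∀ y ∈ Icc 1 N, y ∉ M → y ∉ B → Win N n M (insert y B)) : Win N n M B

theorem Win.exists_move {N n : ℕ} {M B : Finset ℕ} (h : Win N n M B) (hc : M.card = B.card)
    (hf : ∃ z ∈ Icc 1 N, z ∉ M ∧ z ∉ B) :
    ∃ x, x ∈ Icc 1 N ∧ x ∉ M ∧ x ∉ B ∧ Win N n (insert x M) B := by
  cases h with
  | ap h =>
    obtain ⟨z, hz, h1, h2⟩ := hf
    exact ⟨z, hz, h1, h2, Win.ap (h.mono (Finset.subset_insert _ _))⟩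
  | first _ x hx h1 h2 h => exact ⟨x, hx, h1, h2, h⟩
  | second hc' _ _ => omega

theorem Win.answer {N n : ℕ} {M B : Finset ℕ} (h : Win N n M B) (hc : M.card = B.card + 1)
    {y : ℕ} (hy : y ∈ Icc 1 N) (h1 : y ∉ M) (h2 : y ∉ B) : Win N n M (insert y B) := by
  cases h with
  | ap h => exact Win.ap h
  | first hc' x hx h1 h2 h => omega
  | second _ _ h => exact h y hy h1 h2

theorem Win.final {N n : ℕ} {M B : Finset ℕ} (h : Win N n M B)
    (hf : ¬ ∃ z ∈ Icc 1 N, z ∉ M ∧ z ∉ B) : HasAP n M := by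
  cases h with
  | ap h => exact h
  | first _ x hx h1 h2 h => exact absurd ⟨x, hx, h1, h2⟩ hf
  | second _ hf' _ => exact absurd hf' hf

open Classical in
/-- The strategy: move to a winning position. -/
noncomputable def strat (N n : ℕ) : Strategy := fun M B =>
  if h : ∃ x, x ∈ Icc 1 N ∧ x ∉ M ∧ x ∉ B ∧ Win N n (insert x M) B then h.choose else 0

theorem strat_spec {N n : ℕ} {M B : Finset ℕ}
    (h : ∃ x, x ∈ Icc 1 N ∧ x ∉ M ∧ x ∉ B ∧ Win N n (insert x M) B) :
    strat N n M B ∈ Icc 1 N ∧ strat N n M B ∉ M ∧ strat N n M B ∉ B ∧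
      Win N n (insert (strat N n M B) M) B := by
  unfold strat
  rw [dif_pos h]
  exact h.choose_spec

theorem exists_free {N : ℕ} {M B : Finset ℕ} (h : M.card + B.card < N) :
    ∃ z ∈ Icc 1 N, z ∉ M ∧ z ∉ B := by
  by_contra hcon
  push Not at hcon
  have h1 : Icc 1 N ⊆ M ∪ B := by
    intro z hz
    by_cases hM : z ∈ M
    · exact Finset.mem_union_left _ hM
    · exact Finset.mem_union_right _ (hcon z hz hM)
  have h2 := (Finset.card_le_card h1).trans (Finset.card_union_le M B)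
  rw [Nat.card_Icc] at h2
  omega

theorem not_exists_free {N : ℕ} {M B : Finset ℕ} (hM : M ⊆ Icc 1 N) (hB : B ⊆ Icc 1 N)
    (hd : Disjoint M B) (h : M.card + B.card = N) : ¬ ∃ z ∈ Icc 1 N, z ∉ M ∧ z ∉ B := by
  rintro ⟨z, hz, h1, h2⟩
  have h3 : M ∪ B = Icc 1 N := by
    apply Finset.eq_of_subset_of_card_le (Finset.union_subset hM hB)
    rw [Finset.card_union_of_disjoint hd, h, Nat.card_Icc]
    omega
  rw [← h3, Finset.mem_union] at hz
  rcases hz with hz | hz
  · exact h1 hz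
  · exact h2 hz

theorem canForce_of_win' {N n : ℕ} (hW : Win N n ∅ ∅) : ∃ σ : Strategy, ∀ b : ℕ → ℕ,
    (∀ i < N / 2, b i ∈ Icc 1 N ∧ b i ∉ (position σ b (i + 1)).1 ∧ b i ∉ (position σ b i).2) →
    (∀ i < (N + 1) / 2, σ (position σ b i).1 (position σ b i).2 ∈ Icc 1 N ∧
      σ (position σ b i).1 (position σ b i).2 ∉ (position σ b i).1 ∧
      σ (position σ b i).1 (position σ b i).2 ∉ (position σ b i).2) ∧
    HasAP n (position σ b ((N + 1) / 2)).1 := by
  refine ⟨strat N n, fun b hb => ?_⟩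
  have inv : ∀ i ≤ N / 2, (position (strat N n) b i).1 ⊆ Icc 1 N ∧
      (position (strat N n) b i).2 ⊆ Icc 1 N ∧
      Disjoint (position (strat N n) b i).1 (position (strat N n) b i).2 ∧
      (position (strat N n) b i).1.card = i ∧ (position (strat N n) b i).2.card = i ∧
      Win N n (position (strat N n) b i).1 (position (strat N n) b i).2 := by
    intro i
    induction i with
    | zero =>
      intro _
      simp only [position]
      exact ⟨by simp, by simp, by simp, by simp, by simp, hW⟩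
    | succ i ih =>
      intro hi
      obtain ⟨h1, h2, h3, h4, h5, h6⟩ := ih (by omega)
      obtain ⟨b1, b2, b3⟩ := hb i (by omega)
      obtain ⟨s1, s2, s3, s4⟩ := strat_spec (h6.exists_move (by rw [h4, h5])
        (exists_free (by rw [h4, h5]; omega)))
      simp only [position] at b2 ⊢
      refine ⟨Finset.insert_subset s1 h1, Finset.insert_subset b1 h2, ?_,
        by rw [Finset.card_insert_of_notMem s2, h4], by rw [Finset.card_insert_of_notMem b3, h5],
        s4.answer (by rw [Finset.card_insert_of_notMem s2, h4, h5]) b1 b2 b3⟩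
      rw [Finset.disjoint_insert_right]
      refine ⟨b2, ?_⟩
      rw [Finset.disjoint_insert_left]
      exact ⟨s3, h3⟩
  have move : ∀ i < (N + 1) / 2, _ := fun i hi => by
    obtain ⟨h1, h2, h3, h4, h5, h6⟩ := inv i (by omega)
    exact strat_spec (h6.exists_move (by rw [h4, h5]) (exists_free (by rw [h4, h5]; omega)))
  refine ⟨fun i hi => ⟨(move i hi).1, (move i hi).2.1, (move i hi).2.2.1⟩, ?_⟩
  obtain ⟨h1, h2, h3, h4, h5, h6⟩ := inv (N / 2) le_rfl
  rcases Nat.even_or_odd' N with ⟨k, hk | hk⟩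
  · have e1 : (N + 1) / 2 = N / 2 := by omega
    rw [e1]
    exact h6.final (not_exists_free h1 h2 h3 (by rw [h4, h5]; omega))
  · have e1 : (N + 1) / 2 = N / 2 + 1 := by omega
    obtain ⟨s1, s2, s3, s4⟩ := move (N / 2) (by omega)
    rw [e1]
    simp only [position]
    refine s4.final (not_exists_free (Finset.insert_subset s1 h1) h2 ?_ ?_)
    · rw [Finset.disjoint_insert_left]
      exact ⟨s3, h3⟩
    · rw [Finset.card_insert_of_notMem s2, h4, h5]
      omega

theorem canForce_of_win {N n : ℕ} (hW : Win N n ∅ ∅) : CanForce N n := by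
  obtain ⟨τ, hτ⟩ := canForce_of_win' hW
  refine ⟨fun l => τ (after τ l).1 (after τ l).2, fun b hb => ?_⟩
  obtain ⟨h1, h2⟩ := hτ b (fun i hi => by
    obtain ⟨b1, b2, b3⟩ := hb i hi
    refine ⟨b1, ?_, ?_⟩
    · rw [position_fst, Finset.mem_image]
      rintro ⟨j, hj, he⟩
      exact b2 j (by rw [Finset.mem_range] at hj; omega) he.symm
    · rw [position_snd, Finset.mem_image]
      rintro ⟨j, hj, he⟩
      exact b3 j (Finset.mem_range.1 hj) he.symm)
  refine ⟨fun i hi => ?_, ?_⟩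
  · obtain ⟨s1, s2, s3⟩ := h1 i hi
    rw [← move_eq τ b i] at s1 s2 s3
    rw [position_fst, Finset.mem_image] at s2
    rw [position_snd, Finset.mem_image] at s3
    refine ⟨s1, fun j hj he => s2 ⟨j, Finset.mem_range.2 hj, he.symm⟩,
      fun j hj he => s3 ⟨j, Finset.mem_range.2 hj, he.symm⟩⟩
  · rw [← position_fst]
    exact h2

theorem canForce_large {δ : ℝ} (hδ : 0 < δ) : ∃ n0 : ℕ, ∀ n : ℕ, n0 ≤ n →
    ∀ N : ℕ, ⌈δ * n * 2 ^ n⌉₊ ≤ N → CanForce N n := by
  obtain ⟨n0, h⟩ := Pool.Agent.H23.VW.ww_mem hδ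
  refine ⟨n0, fun n hn N hN => canForce_of_win ?_⟩
  refine h n hn N hN (Win N n) ?_ ?_ ?_
  · rintro M B ⟨a, d, hd, h⟩
    exact Win.ap ⟨a, d, hd, h⟩
  · rintro M B hc ⟨x, hx, h1, h2, h3⟩
    exact Win.first hc x hx h1 h2 h3
  · intro M B hc hf h
    exact Win.second hc hf h

/-! ### Van der Waerden numbers -/

theorem vdw (n : ℕ) : ∃ N : ℕ, ∀ A ⊆ Icc 1 N, HasAP n A ∨ HasAP n (Icc 1 N \ A) := by
  classical
  obtain ⟨ι, hfin, hι⟩ := Combinatorics.Line.exists_mono_in_high_dimension (Fin n) Bool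
  refine ⟨Fintype.card ι * n + 1, fun A _ => ?_⟩
  obtain ⟨l, c, hl⟩ := hι fun v => decide (1 + ∑ i, (v i : ℕ) ∈ A)
  set s : Finset ι := {i | l.idxFun i = none} with hs
  have hsum : ∀ x : Fin n, 1 + ∑ i, ((l x i : Fin n) : ℕ) =
      1 + ∑ i ∈ sᶜ, ((l.idxFun i).map (fun y : Fin n => (y : ℕ))).getD 0 + (x : ℕ) * s.card := by
    intro x
    rw [← Finset.sum_add_sum_compl s, add_comm (∑ i ∈ s, _), ← add_assoc]
    congr 1
    · congr 1
      apply Finset.sum_congr rfl
      intro i hi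
      rw [hs, Finset.compl_filter, Finset.mem_filter] at hi
      obtain ⟨y, hy⟩ := Option.ne_none_iff_exists.mp hi.right
      simp [← hy, Option.map_some, Option.getD]
    · rw [mul_comm, ← smul_eq_mul, ← Finset.sum_const]
      apply Finset.sum_congr rfl
      intro i hi
      rw [hs, Finset.mem_filter] at hi
      rw [l.apply_none _ _ hi.right]
  have hpos : 1 ≤ s.card := Finset.card_pos.mpr ⟨l.proper.choose, by
    rw [hs, Finset.mem_filter]
    exact ⟨Finset.mem_univ _, l.proper.choose_spec⟩⟩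
  have hle : ∀ x : Fin n, 1 + ∑ i, ((l x i : Fin n) : ℕ) ∈ Icc 1 (Fintype.card ι * n + 1) := by
    intro x
    rw [Finset.mem_Icc]
    refine ⟨by omega, ?_⟩
    have : ∑ i, ((l x i : Fin n) : ℕ) ≤ Fintype.card ι * n := by
      rw [← smul_eq_mul, ← Finset.card_univ, ← Finset.sum_const]
      exact Finset.sum_le_sum fun i _ => (l x i).2.le
    omega
  cases c with
  | true =>
    refine Or.inl ⟨1 + ∑ i ∈ sᶜ, ((l.idxFun i).map (fun y : Fin n => (y : ℕ))).getD 0, s.card, hpos,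
      fun i hi => ?_⟩
    have h1 := hl ⟨i, hi⟩
    simp only [decide_eq_true_eq] at h1
    rw [hsum ⟨i, hi⟩] at h1
    exact h1
  | false =>
    refine Or.inr ⟨1 + ∑ i ∈ sᶜ, ((l.idxFun i).map (fun y : Fin n => (y : ℕ))).getD 0, s.card, hpos,
      fun i hi => ?_⟩
    have h1 := hl ⟨i, hi⟩
    simp only [decide_eq_false_iff_not] at h1
    have h2 := Finset.mem_sdiff.2 ⟨hle ⟨i, hi⟩, h1⟩
    rw [hsum ⟨i, hi⟩] at h2
    exact h2

theorem W_lower {n N : ℕ} (hn : 8 ≤ n)
    (h : ∀ A ⊆ Icc 1 N, HasAP n A ∨ HasAP n (Icc 1 N \ A)) :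
    ((n : ℝ) - 1) * 2 ^ n / 4 < (N : ℝ) := by
  apply Pool.Agent.H62.VW.W_lower_strong n hn
  intro c
  rcases h ((Icc 1 N).filter fun x => c x = true) (Finset.filter_subset _ _) with
    ⟨a, d, hd, h⟩ | ⟨a, d, hd, h⟩
  · refine ⟨a, d, hd, fun i hi => ?_⟩
    have h0 := h 0 (by omega)
    have hi' := h i hi
    rw [Finset.mem_filter] at h0 hi'
    rw [zero_mul, add_zero] at h0
    exact ⟨hi'.1, hi'.2.trans h0.2.symm⟩
  · refine ⟨a, d, hd, fun i hi => ?_⟩
    have h0 := h 0 (by omega)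
    have hi' := h i hi
    rw [Finset.mem_sdiff, Finset.mem_filter] at h0 hi'
    rw [zero_mul, add_zero] at h0
    have e0 : c a = false := by
      by_contra hne
      exact h0.2 ⟨h0.1, by simpa using hne⟩
    have e1 : c (a + i * d) = false := by
      by_contra hne
      exact hi'.2 ⟨hi'.1, by simpa using hne⟩
    exact ⟨hi'.1, e1.trans e0.symm⟩

/-- The Weak Win thresholds `ww n` and the van der Waerden numbers `W n` exist, for every `δ > 0`
one has `ww n ≤ δ n 2^n` for all large `n`, and `W n > (n - 1) 2^n / 4` for all `n ≥ 8`; so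
`ww n / W n` tends to `0`. -/
theorem result : ∃ ww W : ℕ → ℕ,
    (∀ n : ℕ, IsLeast {N₀ : ℕ | ∀ N : ℕ, N₀ ≤ N → CanForce N n} (ww n)) ∧
    (∀ n : ℕ, IsLeast {N : ℕ | ∀ A ⊆ Icc 1 N, HasAP n A ∨ HasAP n (Icc 1 N \ A)} (W n)) ∧
    (∀ δ : ℝ, 0 < δ → ∃ n₀ : ℕ, ∀ n : ℕ, n₀ ≤ n → (ww n : ℝ) ≤ δ * (n * 2 ^ n)) ∧
    (∀ n : ℕ, 8 ≤ n → ((n : ℝ) - 1) * 2 ^ n / 4 < W n) ∧
    Tendsto (fun n : ℕ => (ww n : ℝ) / (W n : ℝ)) atTop (𝓝 0) := by
  classical
  obtain ⟨m0, hm0⟩ := canForce_large (δ := 1) one_pos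
  have hne : ∀ n : ℕ, ∃ N₀ : ℕ, ∀ N : ℕ, N₀ ≤ N → CanForce N n := by
    intro n
    exact ⟨_, fun N hN => (hm0 (max m0 n) (le_max_left _ _) N hN).anti (le_max_right _ _)⟩
  have hA : ∀ n : ℕ, IsLeast {N₀ : ℕ | ∀ N : ℕ, N₀ ≤ N → CanForce N n} (Nat.find (hne n)) :=
    fun n => ⟨Nat.find_spec (hne n), fun N hN => Nat.find_min' (hne n) hN⟩
  have hB : ∀ n : ℕ, IsLeast {N : ℕ | ∀ A ⊆ Icc 1 N, HasAP n A ∨ HasAP n (Icc 1 N \ A)}
      (Nat.find (vdw n)) :=
    fun n => ⟨Nat.find_spec (vdw n), fun N hN => Nat.find_min' (vdw n) hN⟩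
  have hC : ∀ δ : ℝ, 0 < δ → ∃ n₀ : ℕ, ∀ n : ℕ, n₀ ≤ n →
      ((Nat.find (hne n) : ℕ) : ℝ) ≤ δ * (n * 2 ^ n) := by
    intro δ hδ
    obtain ⟨n0, h0⟩ := canForce_large (δ := δ / 2) (by positivity)
    obtain ⟨n1, h1⟩ := Pool.Agent.H23.VW.growth_one (2 / δ)
    refine ⟨max (max n0 n1) 1, fun n hn => ?_⟩
    have hn0 : n0 ≤ n := ((le_max_left _ _).trans (le_max_left _ _)).trans hn
    have hn1 : n1 ≤ n := ((le_max_right _ _).trans (le_max_left _ _)).trans hn
    have hn2 : 1 ≤ n := (le_max_right _ _).trans hn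
    have h2 : Nat.find (hne n) ≤ ⌈δ / 2 * n * 2 ^ n⌉₊ := Nat.find_min' (hne n) (h0 n hn0)
    have h3 : ((Nat.find (hne n) : ℕ) : ℝ) ≤ (⌈δ / 2 * n * 2 ^ n⌉₊ : ℝ) := by exact_mod_cast h2
    have h4 := Nat.ceil_lt_add_one (by positivity : 0 ≤ δ / 2 * (n : ℝ) * 2 ^ n)
    have h5 : 1 ≤ δ / 2 * ((n : ℝ) * 2 ^ n) := by
      have h6 := h1 n hn1
      rw [div_le_iff₀ hδ] at h6
      have h7 : (1 : ℝ) ≤ n := by exact_mod_cast hn2
      have h8 : (2 : ℝ) ^ n * 1 ≤ 2 ^ n * n := mul_le_mul_of_nonneg_left h7 (by positivity)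
      nlinarith
    linarith
  have hD : ∀ n : ℕ, 8 ≤ n → ((n : ℝ) - 1) * 2 ^ n / 4 < ((Nat.find (vdw n) : ℕ) : ℝ) :=
    fun n hn => W_lower hn (Nat.find_spec (vdw n))
  refine ⟨fun n => Nat.find (hne n), fun n => Nat.find (vdw n), hA, hB, hC, hD, ?_⟩
  rw [Metric.tendsto_atTop]
  intro ε hε
  obtain ⟨n0, h0⟩ := hC (ε / 16) (by positivity)
  refine ⟨max n0 8, fun n hn => ?_⟩
  have h1 := h0 n ((le_max_left _ _).trans hn)
  have h8 : 8 ≤ n := (le_max_right _ _).trans hn
  have h2 := hD n h8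
  have h8' : (8 : ℝ) ≤ n := by exact_mod_cast h8
  have h3 : (0 : ℝ) < 2 ^ n := by positivity
  have h4 : (n : ℝ) * 2 ^ n / 8 < ((Nat.find (vdw n) : ℕ) : ℝ) := by nlinarith
  have h5 : (0 : ℝ) < ((Nat.find (vdw n) : ℕ) : ℝ) := lt_trans (by positivity) h4
  rw [Real.dist_eq, sub_zero, abs_of_nonneg (by positivity), div_lt_iff₀ h5]
  have h6 : ε * ((n : ℝ) * 2 ^ n / 8) < ε * ((Nat.find (vdw n) : ℕ) : ℝ) :=
    mul_lt_mul_of_pos_left h4 hε
  have h7 : 0 < ε * ((n : ℝ) * 2 ^ n) := by positivity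
  linarith

end Pool.Agent.Results.MP_5a0b46_co.WeakWinThreshold
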